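import Pool.Agent.K1H53.BI.Plan

/-! Piece MOM of project BI (helper53): many distinct lattice points have a large sum of squared
norms. -/

namespace Pool.Agent.K1H24.BI

open Finset Pool.Agent.K1H53.BI

theorem small_card (A : Finset V) (m : ℕ) :
    (A.filter fun z => ∀ i, (z i).natAbs ≤ m).card ≤ (2 * m + 1) ^ 3 := by
  have h1 : (A.filter fun z => ∀ i, (z i).natAbs ≤ m) ⊆
      Fintype.piFinset (fun _ : Fin 3 => Finset.Icc (-(m : ℤ)) (m : ℤ)) := by
    intro z hz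
    rw [Finset.mem_filter] at hz
    rw [Fintype.mem_piFinset]
    intro i
    rw [Finset.mem_Icc]
    have := hz.2 i
    omega
  have h2 := Finset.card_le_card h1
  rw [Fintype.card_piFinset] at h2
  simp only [Int.card_Icc, Finset.prod_const, Finset.card_univ, Fintype.card_fin] at h2
  have h3 : ((m : ℤ) + 1 - -(m : ℤ)).toNat = 2 * m + 1 := by omega
  rw [h3] at h2
  exact h2

theorem nsq_large (z : V) (m : ℕ) (hz : ¬ ∀ i, (z i).natAbs ≤ m) : (m + 1) ^ 2 ≤ nsq z := by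
  push Not at hz
  obtain ⟨i, hi⟩ := hz
  unfold nsq
  calc (m + 1) ^ 2 ≤ (z i).natAbs ^ 2 := Nat.pow_le_pow_left hi 2
    _ ≤ ∑ i, (z i).natAbs ^ 2 :=
        Finset.single_le_sum (f := fun i => (z i).natAbs ^ 2) (fun _ _ => Nat.zero_le _)
          (Finset.mem_univ i)

theorem t_MOM : S_MOM := by
  intro A hA
  set N : ℝ := (A.card : ℝ) with hN
  have hN16 : (16 : ℝ) ≤ N := by rw [hN]; exact_mod_cast hA
  set a : ℝ := (N / 2) ^ ((1 : ℝ) / 3) with ha
  have hN2 : (0 : ℝ) ≤ N / 2 := by linarith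
  have ha3 : a ^ 3 = N / 2 := by
    rw [ha, ← Real.rpow_natCast, ← Real.rpow_mul hN2]
    norm_num
  have ha0 : 0 ≤ a := Real.rpow_nonneg hN2 _
  have ha2 : 2 ≤ a := by
    by_contra h
    push Not at h
    have : a ^ 3 < 2 ^ 3 := pow_lt_pow_left₀ h ha0 (by norm_num)
    rw [ha3] at this
    linarith
  have hpow : N ^ ((5 : ℝ) / 3) ≤ 4 * a ^ 5 := by
    have e1 : N = 2 * a ^ 3 := by rw [ha3]; ring
    have e2 : N ^ ((5 : ℝ) / 3) = 2 ^ ((5 : ℝ) / 3) * a ^ 5 := by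
      rw [e1, Real.mul_rpow (by norm_num) (pow_nonneg ha0 3)]
      congr 1
      rw [← Real.rpow_natCast a 3, ← Real.rpow_mul ha0, ← Real.rpow_natCast a 5]
      norm_num
    have e3 : (2 : ℝ) ^ ((5 : ℝ) / 3) ≤ 4 := by
      calc (2 : ℝ) ^ ((5 : ℝ) / 3) ≤ 2 ^ (2 : ℝ) :=
            Real.rpow_le_rpow_of_exponent_le (by norm_num) (by norm_num)
        _ = 4 := by norm_num
    rw [e2]
    exact mul_le_mul_of_nonneg_right e3 (pow_nonneg ha0 5)
  set m : ℕ := ⌊(a - 1) / 2⌋₊ with hm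
  have hm1 : (m : ℝ) ≤ (a - 1) / 2 := Nat.floor_le (by linarith)
  have hm2 : (a - 1) / 2 < m + 1 := Nat.lt_floor_add_one _
  have hm3 : a / 4 ≤ (m : ℝ) + 1 := by linarith
  have hsq : a ^ 2 / 16 ≤ ((m : ℝ) + 1) ^ 2 := by nlinarith
  have hsmall : ((A.filter fun z => ∀ i, (z i).natAbs ≤ m).card : ℝ) ≤ N / 2 := by
    have h1 : ((A.filter fun z => ∀ i, (z i).natAbs ≤ m).card : ℝ) ≤ ((2 * m + 1 : ℕ) : ℝ) ^ 3 := by
      exact_mod_cast small_card A m
    have h2 : (((2 * m + 1 : ℕ) : ℝ)) ^ 3 ≤ a ^ 3 := by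
      apply pow_le_pow_left₀ (by positivity)
      push_cast
      linarith
    rw [ha3] at h2
    linarith
  have hsplit : (A.filter fun z => ∀ i, (z i).natAbs ≤ m).card +
      (A.filter fun z => ¬ ∀ i, (z i).natAbs ≤ m).card = A.card :=
    Finset.card_filter_add_card_filter_not _
  have hbig : N / 2 ≤ ((A.filter fun z => ¬ ∀ i, (z i).natAbs ≤ m).card : ℝ) := by
    have : ((A.filter fun z => ∀ i, (z i).natAbs ≤ m).card : ℝ) +
      ((A.filter fun z => ¬ ∀ i, (z i).natAbs ≤ m).card : ℝ) = N := by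
      rw [hN]; exact_mod_cast hsplit
    linarith
  have hsum : ((A.filter fun z => ¬ ∀ i, (z i).natAbs ≤ m).card : ℝ) * ((m : ℝ) + 1) ^ 2 ≤
      ∑ z ∈ A, (nsq z : ℝ) := by
    calc ((A.filter fun z => ¬ ∀ i, (z i).natAbs ≤ m).card : ℝ) * ((m : ℝ) + 1) ^ 2
        = ∑ z ∈ A.filter (fun z => ¬ ∀ i, (z i).natAbs ≤ m), ((m : ℝ) + 1) ^ 2 := by
          rw [Finset.sum_const, nsmul_eq_mul]
      _ ≤ ∑ z ∈ A.filter (fun z => ¬ ∀ i, (z i).natAbs ≤ m), (nsq z : ℝ) := by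
          apply Finset.sum_le_sum
          intro z hz
          have := nsq_large z m (Finset.mem_filter.mp hz).2
          exact_mod_cast this
      _ ≤ ∑ z ∈ A, (nsq z : ℝ) :=
          Finset.sum_le_sum_of_subset_of_nonneg (Finset.filter_subset _ _)
            (fun _ _ _ => Nat.cast_nonneg _)
  calc N ^ ((5 : ℝ) / 3) / 64 ≤ (4 * a ^ 5) / 64 := by linarith
    _ = a ^ 3 * (a ^ 2 / 16) := by ring
    _ = N / 2 * (a ^ 2 / 16) := by rw [ha3]
    _ ≤ ((A.filter fun z => ¬ ∀ i, (z i).natAbs ≤ m).card : ℝ) * ((m : ℝ) + 1) ^ 2 := by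
        apply mul_le_mul hbig hsq (by positivity) (by positivity)
    _ ≤ _ := hsum

end Pool.Agent.K1H24.BI
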