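import Pool.Agent.K1H53.BI.Plan3
import Pool.Agent.K1H10.BI.GZ

/-! Pieces ZV and NV of project BI, second part (helper53). -/

set_option autoImplicit false

open scoped ENNReal
open Finset

namespace Pool.Agent.K1H24.BI

open Pool.Agent.K1H53.BI Pool.Agent.K1H10.BI

theorem nsq_real (x : V) : (nsq x : ℝ) = (x 0 : ℝ) ^ 2 + (x 1 : ℝ) ^ 2 + (x 2 : ℝ) ^ 2 := by
  have h := nsq_int x
  exact_mod_cast h

/-- Expectation of a nonnegative real function. -/
theorem Ex_hasSum (ν : PMF ℕ) (q : ℕ → ℝ) (S : ℝ) (hq : ∀ k, 0 ≤ q k)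
    (h : HasSum (fun k => (ν k).toReal * q k) S) :
    Ex ν (fun k => ENNReal.ofReal (q k)) = ENNReal.ofReal S := by
  unfold Ex
  have h1 := ENNReal.ofReal_tsum_of_nonneg (f := fun k => (ν k).toReal * q k)
    (fun k => mul_nonneg ENNReal.toReal_nonneg (hq k)) h.summable
  rw [h.tsum_eq] at h1
  rw [h1]
  refine tsum_congr fun k => ?_
  rw [ENNReal.ofReal_mul ENNReal.toReal_nonneg, ENNReal.ofReal_toReal (ν.apply_ne_top k)]

theorem hasSum_one (ν : PMF ℕ) : HasSum (fun k : ℕ => (ν k).toReal) 1 := by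
  have h1 : HasSum (fun k : ℕ => (ν k).toReal) (∑' k, (ν k).toReal) :=
    ENNReal.hasSum_toReal (by rw [ν.tsum_coe]; exact ENNReal.one_ne_top)
  have h2 : ∑' k, (ν k).toReal = 1 := by
    rw [← ENNReal.tsum_toReal_eq (fun k => ν.apply_ne_top k), ν.tsum_coe, ENNReal.toReal_one]
  rw [h2] at h1
  exact h1

theorem sum_dir2 (x : V) (a b : ℝ) :
    ∑ e : Fin 3 × Bool, ((a + (nsq (x + dir e) : ℝ)) ^ 2 + b) =
      6 * ((a + ((nsq x : ℝ) + 1)) ^ 2 + 4 * (nsq x : ℝ) / 3 + b) := by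
  rw [Fintype.sum_prod_type, Fin.sum_univ_three]
  simp only [Fintype.sum_bool, nsq_real, Pi.add_apply, dir]
  simp
  ring

theorem children_sq (x : V) (c : ℝ) (k : ℕ) : ∀ s : St,
    Ex (children x k s) (fun s' => ENNReal.ofReal (((ZZ s' : ℝ) - c) ^ 2)) =
      ENNReal.ofReal (((ZZ s : ℝ) + k * ((nsq x : ℝ) + 1) - c) ^ 2 +
        k * (4 * (nsq x : ℝ) / 3)) := by
  induction k with
  | zero =>
    intro s
    rw [children, Ex_pure]
    simp
  | succ k ih =>
    intro s
    rw [children, Ex_bind]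
    have h : (fun e => Ex (children x k (put s (x + dir e)))
        fun s' => ENNReal.ofReal (((ZZ s' : ℝ) - c) ^ 2)) =
        fun e => ENNReal.ofReal ((((ZZ s : ℝ) + k * ((nsq x : ℝ) + 1) - c) +
          (nsq (x + dir e) : ℝ)) ^ 2 + k * (4 * (nsq x : ℝ) / 3)) := by
      funext e
      rw [ih, ZZ_put]
      congr 1
      push_cast
      ring
    rw [h, Ex_unif, ← ENNReal.ofReal_sum_of_nonneg (fun e _ => by positivity), sum_dir2]
    have h6 : (6 : ℝ≥0∞) = ENNReal.ofReal 6 := by norm_num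
    rw [h6, ← ENNReal.ofReal_div_of_pos (by norm_num)]
    congr 1
    push_cast
    ring

theorem t_ZV : S_ZV := by
  intro ν σ2 M R s t hν hg
  by_cases hP : Proc R s
  · obtain ⟨hL, hI⟩ := hP
    have hP : Proc R s := ⟨hL, hI⟩
    have hind : ind (Proc R) s = 1 := by
      unfold ind
      rw [if_pos hP]
    have hcnt : cnt R s = 1 := by
      unfold cnt
      rw [if_pos hP]
    have hs : stepD ν R s = (PMF.uniformOfFinset (range s.L.length)
        ⟨0, Finset.mem_range.2 (List.length_pos_iff.2 hL)⟩).bind fun i =>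
        ν.bind fun k => children (s.L.getD i 0) k ⟨s.A, s.L.eraseIdx i, s.m⟩ := by
      unfold stepD
      rw [if_pos hI]
      unfold step
      rw [dif_neg hL]
    rw [hs, Ex_bind, hind, hcnt, mul_one]
    have key : ∀ i, i ∈ range s.L.length →
        Ex (ν.bind fun k => children (s.L.getD i 0) k ⟨s.A, s.L.eraseIdx i, s.m⟩)
          (fun s' => ENNReal.ofReal (((ZZ s' : ℝ) - (t + (1 : ℕ))) ^ 2)) ≤
          ENNReal.ofReal (((ZZ s : ℝ) - t) ^ 2) + ENNReal.ofReal (10 * M * (R + 1) ^ 4) := by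
      intro i hi
      rw [Ex_bind]
      set x := s.L.getD i 0 with hx
      have hxL : x ∈ s.L := by
        rw [hx, List.getD_eq_getElem _ _ (Finset.mem_range.1 hi)]
        exact List.getElem_mem _
      have hxR : nsq x ≤ R ^ 2 := hI x (hg.act x hxL)
      have h2 := erase_sum s.L i (Finset.mem_range.1 hi)
      rw [← hx] at h2
      have h3 : ZZ ⟨s.A, s.L.eraseIdx i, s.m⟩ + nsq x = ZZ s := by
        unfold ZZ
        simp only
        omega
      have h3r : (ZZ ⟨s.A, s.L.eraseIdx i, s.m⟩ : ℝ) = ZZ s - nsq x := by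
        have : (ZZ ⟨s.A, s.L.eraseIdx i, s.m⟩ : ℝ) + nsq x = ZZ s := by exact_mod_cast h3
        linarith
      have h1 : (fun k => Ex (children x k ⟨s.A, s.L.eraseIdx i, s.m⟩)
          fun s' => ENNReal.ofReal (((ZZ s' : ℝ) - (t + (1 : ℕ))) ^ 2)) = fun k : ℕ =>
          ENNReal.ofReal ((((ZZ s : ℝ) - t) + ((k : ℝ) - 1) * ((nsq x : ℝ) + 1)) ^ 2 +
            k * (4 * (nsq x : ℝ) / 3)) := by
        funext k
        rw [children_sq, h3r]
        congr 1
        push_cast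
        ring
      rw [h1]
      have hsum : HasSum (fun k : ℕ => (ν k).toReal *
          ((((ZZ s : ℝ) - t) + ((k : ℝ) - 1) * ((nsq x : ℝ) + 1)) ^ 2 +
            k * (4 * (nsq x : ℝ) / 3)))
          ((((ZZ s : ℝ) - t) ^ 2 + 4 * (nsq x : ℝ) / 3) * 1 +
            (2 * ((ZZ s : ℝ) - t) * ((nsq x : ℝ) + 1) + 4 * (nsq x : ℝ) / 3) * 0 +
            ((nsq x : ℝ) + 1) ^ 2 * σ2) := by
        have e1 := ((hasSum_one ν).mul_left (((ZZ s : ℝ) - t) ^ 2 + 4 * (nsq x : ℝ) / 3)).add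
          (hν.m1.mul_left (2 * ((ZZ s : ℝ) - t) * ((nsq x : ℝ) + 1) + 4 * (nsq x : ℝ) / 3))
        have e2 := e1.add (hν.m2.mul_left (((nsq x : ℝ) + 1) ^ 2))
        have e3 : (fun k : ℕ => (ν k).toReal *
            ((((ZZ s : ℝ) - t) + ((k : ℝ) - 1) * ((nsq x : ℝ) + 1)) ^ 2 +
              k * (4 * (nsq x : ℝ) / 3))) = fun k : ℕ =>
            (((ZZ s : ℝ) - t) ^ 2 + 4 * (nsq x : ℝ) / 3) * (ν k).toReal +
            (2 * ((ZZ s : ℝ) - t) * ((nsq x : ℝ) + 1) + 4 * (nsq x : ℝ) / 3) *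
              ((ν k).toReal * ((k : ℝ) - 1)) +
            ((nsq x : ℝ) + 1) ^ 2 * ((ν k).toReal * ((k : ℝ) - 1) ^ 2) := by
          funext k
          ring
        rw [e3]
        exact e2
      rw [Ex_hasSum ν _ _ (fun k => by positivity) hsum, ← ENNReal.ofReal_add (by positivity)
        (by have := hν.one; positivity)]
      apply ENNReal.ofReal_le_ofReal
      have hn : (nsq x : ℝ) ≤ (R : ℝ) ^ 2 := by exact_mod_cast hxR
      have hn0 : (0 : ℝ) ≤ nsq x := Nat.cast_nonneg _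
      have hR0 : (0 : ℝ) ≤ R := Nat.cast_nonneg _
      have hM1 := hν.one
      have hσ := hν.le
      have hσ0 := hν.pos
      have a1 : (nsq x : ℝ) + 1 ≤ ((R : ℝ) + 1) ^ 2 := by nlinarith
      have a2 : ((nsq x : ℝ) + 1) ^ 2 ≤ ((R : ℝ) + 1) ^ 4 := by
        calc ((nsq x : ℝ) + 1) ^ 2 ≤ (((R : ℝ) + 1) ^ 2) ^ 2 :=
              pow_le_pow_left₀ (by linarith) a1 2
          _ = ((R : ℝ) + 1) ^ 4 := by ring
      have a3 : ((nsq x : ℝ) + 1) ^ 2 * σ2 ≤ ((R : ℝ) + 1) ^ 4 * M :=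
        mul_le_mul a2 hσ hσ0.le (by positivity)
      have a4 : (nsq x : ℝ) ≤ ((R : ℝ) + 1) ^ 4 * M := by
        have b1 : (nsq x : ℝ) ≤ ((nsq x : ℝ) + 1) ^ 2 := by nlinarith
        have b2 : ((R : ℝ) + 1) ^ 4 * 1 ≤ ((R : ℝ) + 1) ^ 4 * M :=
          mul_le_mul_of_nonneg_left hM1 (by positivity)
        linarith
      have a5 : 0 ≤ ((R : ℝ) + 1) ^ 4 * M := by positivity
      nlinarith
    calc Ex (PMF.uniformOfFinset (range s.L.length)
          ⟨0, Finset.mem_range.2 (List.length_pos_iff.2 hL)⟩) (fun i =>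
          Ex (ν.bind fun k => children (s.L.getD i 0) k ⟨s.A, s.L.eraseIdx i, s.m⟩)
          (fun s' => ENNReal.ofReal (((ZZ s' : ℝ) - (t + (1 : ℕ))) ^ 2)))
        ≤ Ex (PMF.uniformOfFinset (range s.L.length)
          ⟨0, Finset.mem_range.2 (List.length_pos_iff.2 hL)⟩) (fun _ =>
          ENNReal.ofReal (((ZZ s : ℝ) - t) ^ 2) + ENNReal.ofReal (10 * M * (R + 1) ^ 4)) := by
          refine Ex_mono _ fun i hi => key i ?_
          by_contra hni
          exact hi (PMF.uniformOfFinset_apply_of_notMem _ hni)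
      _ = _ := Ex_const _ _
  · have hind : ind (Proc R) s = 0 := by
      unfold ind
      rw [if_neg hP]
    have hcnt : cnt R s = 0 := by
      unfold cnt
      rw [if_neg hP]
    rw [hind, mul_zero, add_zero, hcnt]
    simp only [Nat.cast_zero, add_zero]
    apply le_of_eq
    unfold stepD
    by_cases hI : In R s
    · rw [if_pos hI]
      have hL : s.L = [] := by
        by_contra h
        exact hP ⟨h, hI⟩
      unfold step
      rw [dif_pos hL, Ex_pure]
      by_cases hm : s.m = 0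
      · rw [if_pos hm]
      · rw [if_neg hm]
        unfold ZZ
        simp [hL, nsq_zero]
    · rw [if_neg hI, Ex_pure]

theorem t_NV : S_NV := by
  intro hS hZ hA ν σ2 M R T n hν hT
  have h1 := (hA ν R T n).2 (fun p => ENNReal.ofReal (((ZZ p.1 : ℝ) - p.2) ^ 2))
    (ENNReal.ofReal (10 * M * (R + 1) ^ 4)) (by
      intro s N hs
      have h2 := hZ ν σ2 M R s N hν hs
      simp only [Nat.cast_add]
      exact h2)
  refine h1.trans ?_
  have h3 : ZZ ⟨{0}, [], T - 1⟩ = 0 := by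
    unfold ZZ
    simp [nsq_zero]
  simp only [h3, Nat.cast_zero, sub_zero]
  rw [zero_pow (by norm_num), ENNReal.ofReal_zero, zero_add]
  have h4 := (hS ν σ2 M R T n hν hT).2
  have hM := hν.one
  calc ENNReal.ofReal (10 * M * (R + 1) ^ 4) * EN ν R T n
      ≤ ENNReal.ofReal (10 * M * (R + 1) ^ 4) * (T * (R + 1) ^ 2) := by gcongr
    _ = ENNReal.ofReal (10 * M * (R + 1) ^ 4) * ENNReal.ofReal (T * ((R : ℝ) + 1) ^ 2) := by
        congr 1
        rw [ENNReal.ofReal_mul (Nat.cast_nonneg _), ENNReal.ofReal_natCast,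
          ENNReal.ofReal_pow (by positivity), ENNReal.ofReal_add (by positivity) (by norm_num),
          ENNReal.ofReal_natCast, ENNReal.ofReal_one]
    _ = ENNReal.ofReal (10 * M * T * (R + 1) ^ 6) := by
        rw [← ENNReal.ofReal_mul (by positivity)]
        congr 1
        ring

end Pool.Agent.K1H24.BI
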